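import Mathlib

namespace Pool.Agent.Results.MP_944b5f_al.CloneT2

open Function Filter

/-- A finitary operation on `ω = ℕ`: an arity `n` together with a map `ω^n → ω`. -/
abbrev Operation : Type := Σ n : ℕ, ((Fin n → ℕ) → ℕ)

/-- Clones on `ω`: sets of operations of arity at least one which contain all projections and are
closed under composition. -/
structure IsClone (C : Set Operation) : Prop where
  arity_pos : ∀ f ∈ C, 1 ≤ f.1
  proj_mem : ∀ (n : ℕ) (i : Fin n), (⟨n, fun x => x i⟩ : Operation) ∈ C
  comp_mem : ∀ (n m : ℕ) (f : (Fin n → ℕ) → ℕ) (g : Fin n → (Fin m → ℕ) → ℕ),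
    (⟨n, f⟩ : Operation) ∈ C → (∀ i, (⟨m, g i⟩ : Operation) ∈ C) →
      (⟨m, fun x => f (fun i => g i x)⟩ : Operation) ∈ C

/-- The clone generated by a set of operations: the intersection of all clones containing it. -/
def generatedClone (S : Set Operation) : Set Operation := ⋂₀ {C | IsClone C ∧ S ⊆ C}

/-- A two-place function viewed as an operation of arity two. -/
def toOperation (f : ℕ → ℕ → ℕ) : Operation := ⟨2, fun x => f (x 0) (x 1)⟩

/-- The binary members of a set of operations. -/
def binaryFragment (C : Set Operation) : Set (ℕ → ℕ → ℕ) := {f | toOperation f ∈ C}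

/-- `f` is somewhere 1-1: for some unary `u, v` the map `(x, y) ↦ f (u x, v y)` is injective on
`∇ = {x < y}` or injective on `Δ = {x > y}`. -/
def SomewhereOneOne (f : ℕ → ℕ → ℕ) : Prop :=
  ∃ u v : ℕ → ℕ,
    Set.InjOn (fun p : ℕ × ℕ => f (u p.1) (v p.2)) {p | p.1 < p.2} ∨
    Set.InjOn (fun p : ℕ × ℕ => f (u p.1) (v p.2)) {p | p.2 < p.1}

/-- `T_2`: the set of all nowhere 1-1 binary operations. -/
def T2 : Set (ℕ → ℕ → ℕ) := {f | ¬ SomewhereOneOne f}

/-- `Pol(T_2)`: the union of all clones with binary fragment `T_2`; the theorem says in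
particular that this is the largest such clone. -/
def PolT2 : Set Operation := ⋃₀ {C | IsClone C ∧ binaryFragment C = T2}

/-! ### Auxiliary notions -/

/-- The tuple whose `l`-th entry is `u l t` or `u l s` according to `d l`. -/
def tup {ι : Type} (d : ι → Bool) (u : ι → ℕ → ℕ) (s t : ℕ) : ι → ℕ :=
  fun l => u l (if d l then t else s)

def SI {ι : Type} (F : (ι → ℕ) → ℕ) : Prop :=
  ∃ (d : ι → Bool) (u : ι → ℕ → ℕ), ∀ s t s' t' : ℕ, s < t → s' < t' →
    F (tup d u s t) = F (tup d u s' t') → s = s' ∧ t = t'

inductive G {ι : Type} : ((ι → ℕ) → ℕ) → Prop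
  | proj (i : ι) : G (fun x => x i)
  | app (b : ℕ → ℕ → ℕ) (hb : b ∈ T2) (f g : (ι → ℕ) → ℕ) (hf : G f) (hg : G g) :
      G (fun x => b (f x) (g x))

theorem tup_comp {ι : Type} (d : ι → Bool) (u : ι → ℕ → ℕ) (τ : ℕ → ℕ) (s t : ℕ) :
    tup d (fun l r => u l (τ r)) s t = tup d u (τ s) (τ t) := by
  funext l
  unfold tup
  split_ifs <;> rfl

theorem G.subst {ι κ : Type} {f : (ι → ℕ) → ℕ} (hf : G f) (h : ι → (κ → ℕ) → ℕ)
    (hh : ∀ l, G (h l)) : G (fun x => f (fun l => h l x)) := by
  induction hf with
  | proj i => exact hh i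
  | app b hb f g _ _ ihf ihg => exact G.app b hb _ _ ihf ihg

theorem T2_of (b : ℕ → ℕ → ℕ)
    (h1 : ∀ u v : ℕ → ℕ, (∀ s t s' t' : ℕ, s < t → s' < t' →
      b (u s) (v t) = b (u s') (v t') → s = s' ∧ t = t') → False)
    (h2 : ∀ u v : ℕ → ℕ, (∀ s t s' t' : ℕ, s < t → s' < t' →
      b (u t) (v s) = b (u t') (v s') → s = s' ∧ t = t') → False) : b ∈ T2 := by
  rintro ⟨u, v, h | h⟩
  · refine h1 u v (fun s t s' t' hst hst' he => ?_)
    have := @h (s, t) hst (s', t') hst' he
    exact ⟨congrArg Prod.fst this, congrArg Prod.snd this⟩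
  · refine h2 u v (fun s t s' t' hst hst' he => ?_)
    have := @h (t, s) hst (t', s') hst' he
    exact ⟨congrArg Prod.snd this, congrArg Prod.fst this⟩

theorem T2_elim1 {b : ℕ → ℕ → ℕ} (hb : b ∈ T2) (u v : ℕ → ℕ)
    (h : ∀ s t s' t' : ℕ, s < t → s' < t' →
      b (u s) (v t) = b (u s') (v t') → s = s' ∧ t = t') : False := by
  refine hb ⟨u, v, Or.inl ?_⟩
  rintro ⟨s, t⟩ hst ⟨s', t'⟩ hst' he
  obtain ⟨h1, h2⟩ := h s t s' t' hst hst' he
  exact Prod.ext h1 h2

theorem T2_elim2 {b : ℕ → ℕ → ℕ} (hb : b ∈ T2) (u v : ℕ → ℕ)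
    (h : ∀ s t s' t' : ℕ, s < t → s' < t' →
      b (u t) (v s) = b (u t') (v s') → s = s' ∧ t = t') : False := by
  refine hb ⟨u, v, Or.inr ?_⟩
  rintro ⟨t, s⟩ hst ⟨t', s'⟩ hst' he
  obtain ⟨h1, h2⟩ := h s t s' t' hst hst' he
  exact Prod.ext h2 h1

/-- For binary functions `SI` is the same as being somewhere 1-1. -/
theorem T2_iff (b : ℕ → ℕ → ℕ) : b ∈ T2 ↔ ¬ SI (fun x : Fin 2 → ℕ => b (x 0) (x 1)) := by
  constructor
  · rintro hb ⟨d, u, h⟩
    have key : ∀ s t, b (tup d u s t 0) (tup d u s t 1)
        = b (u 0 (if d 0 then t else s)) (u 1 (if d 1 then t else s)) := fun s t => rfl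
    cases h0 : d 0 <;> cases h1 : d 1
    · have := h 0 1 0 2 (by norm_num) (by norm_num) (by simp [key, h0, h1])
      omega
    · refine T2_elim1 hb (u 0) (u 1) (fun s t s' t' hst hst' he => h s t s' t' hst hst' ?_)
      simpa [key, h0, h1] using he
    · refine T2_elim2 hb (u 0) (u 1) (fun s t s' t' hst hst' he => h s t s' t' hst hst' ?_)
      simpa [key, h0, h1] using he
    · have := h 0 2 1 2 (by norm_num) (by norm_num) (by simp [key, h0, h1])
      omega
  · intro hb
    refine T2_of b (fun u v h => hb ?_) (fun u v h => hb ?_)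
    · refine ⟨![false, true], ![u, v], fun s t s' t' hst hst' he => h s t s' t' hst hst' ?_⟩
      simpa [tup] using he
    · refine ⟨![true, false], ![u, v], fun s t s' t' hst hst' he => h s t s' t' hst hst' ?_⟩
      simpa [tup] using he

theorem no_bdd_inj (φ : ℕ → ℕ) (hφ : Injective φ) (R : Set ℕ) (hR : R.Finite)
    (h : ∀ t, φ t ∈ R) : False := by
  have := Set.infinite_range_of_injective hφ
  exact this (hR.subset (by rintro _ ⟨t, rfl⟩; exact h t))

/-- Functions of the first argument only. -/
theorem T2_left (h : ℕ → ℕ) : (fun y _ => h y) ∈ T2 := by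
  refine T2_of _ (fun u v H => ?_) (fun u v H => ?_)
  · have := H 0 1 0 2 (by norm_num) (by norm_num) rfl
    omega
  · have := H 0 2 1 2 (by norm_num) (by norm_num) rfl
    omega

theorem T2_right (h : ℕ → ℕ) : (fun _ z => h z) ∈ T2 := by
  refine T2_of _ (fun u v H => ?_) (fun u v H => ?_)
  · have := H 0 2 1 2 (by norm_num) (by norm_num) rfl
    omega
  · have := H 0 1 0 2 (by norm_num) (by norm_num) rfl
    omega

theorem T2_max : (fun y z => max y z) ∈ T2 := by
  have key : ∀ u v : ℕ → ℕ, (∀ s t s' t' : ℕ, s < t → s' < t' →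
      max (u s) (v t) = max (u s') (v t') → s = s' ∧ t = t') → False := by
    intro u v H
    by_cases hc : ∃ t, 2 ≤ t ∧ max (u 0) (u 1) ≤ v t
    · obtain ⟨t, ht, hv⟩ := hc
      have h0 : u 0 ≤ v t := le_trans (le_max_left _ _) hv
      have h1 : u 1 ≤ v t := le_trans (le_max_right _ _) hv
      have := H 0 t 1 t (by omega) (by omega) (by rw [max_eq_right h0, max_eq_right h1])
      omega
    · push Not at hc
      refine no_bdd_inj (fun t => v (t + 2)) ?_ (Set.Iio (max (u 0) (u 1))) (Set.finite_Iio _)
        (fun t => hc (t + 2) (by omega))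
      intro t t' he
      have := H 0 (t + 2) 0 (t' + 2) (by omega) (by omega) (by
        have he' : v (t + 2) = v (t' + 2) := he
        rw [he'])
      omega
  refine T2_of _ key (fun u v H => key v u (fun s t s' t' hst hst' he => ?_))
  refine H s t s' t' hst hst' ?_
  show max (u t) (v s) = max (u t') (v s')
  rw [max_comm (u t), max_comm (u t')]
  exact he

/-- The selector `C(b, v) = v` if `b = 1` and `0` otherwise. -/
theorem T2_sel : (fun y z => if y = 1 then z else 0) ∈ T2 := by
  refine T2_of _ (fun u v H => ?_) (fun u v H => ?_)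
  · by_cases h0 : u 0 = 1
    · by_cases h1 : u 1 = 1
      · have := H 0 2 1 2 (by norm_num) (by norm_num) (by simp [h0, h1])
        omega
      · have := H 1 2 1 3 (by norm_num) (by norm_num) (by simp [h1])
        omega
    · have := H 0 1 0 2 (by norm_num) (by norm_num) (by simp [h0])
      omega
  · refine no_bdd_inj (fun t => if u (t + 1) = 1 then v 0 else 0) ?_ {v 0, 0} (by simp) ?_
    · intro t t' he
      have := H 0 (t + 1) 0 (t' + 1) (by omega) (by omega) he
      omega
    · intro t
      show (if u (t + 1) = 1 then v 0 else 0) ∈ ({v 0, 0} : Set ℕ)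
      split_ifs <;> simp

theorem T2_eq : (fun y z : ℕ => if y = z then 1 else 0) ∈ T2 := by
  refine T2_of _ (fun u v H => ?_) (fun u v H => ?_)
  · refine no_bdd_inj (fun t => if u 0 = v (t + 1) then 1 else 0) ?_ {1, 0} (by simp) ?_
    · intro t t' he
      have := H 0 (t + 1) 0 (t' + 1) (by omega) (by omega) he
      omega
    · intro t
      show (if u 0 = v (t + 1) then 1 else 0) ∈ ({1, 0} : Set ℕ)
      split_ifs <;> simp
  · refine no_bdd_inj (fun t => if u (t + 1) = v 0 then 1 else 0) ?_ {1, 0} (by simp) ?_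
    · intro t t' he
      have := H 0 (t + 1) 0 (t' + 1) (by omega) (by omega) he
      omega
    · intro t
      show (if u (t + 1) = v 0 then 1 else 0) ∈ ({1, 0} : Set ℕ)
      split_ifs <;> simp

theorem T2_fin (b : ℕ → ℕ → ℕ) (h1 : ∀ y, (Set.range (b y)).Finite)
    (h2 : ∀ y z, z ≤ y → b y z = b y 0) : b ∈ T2 := by
  refine T2_of _ (fun u v H => ?_) (fun u v H => ?_)
  · refine no_bdd_inj (fun t => b (u 0) (v (t + 1))) ?_ _ (h1 (u 0)) (fun t => ⟨_, rfl⟩)
    intro t t' he
    have := H 0 (t + 1) 0 (t' + 1) (by omega) (by omega) he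
    omega
  · by_cases hc : ∃ t, 2 ≤ t ∧ max (v 0) (v 1) ≤ u t
    · obtain ⟨t, ht, hv⟩ := hc
      have h0 : v 0 ≤ u t := le_trans (le_max_left _ _) hv
      have h1 : v 1 ≤ u t := le_trans (le_max_right _ _) hv
      have := H 0 t 1 t (by omega) (by omega) (by rw [h2 _ _ h0, h2 _ _ h1])
      omega
    · push Not at hc
      refine no_bdd_inj (fun t => u (t + 2)) ?_ (Set.Iio (max (v 0) (v 1))) (Set.finite_Iio _)
        (fun t => hc (t + 2) (by omega))
      intro t t' he
      have := H 0 (t + 2) 0 (t' + 2) (by omega) (by omega) (by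
        have he' : u (t + 2) = u (t' + 2) := he
        rw [he'])
      omega

theorem SI_shift {ι : Type} {g : (ι → ℕ) → ℕ} (h : SI g) :
    ∃ (d : ι → Bool) (u : ι → ℕ → ℕ), (∀ s t : ℕ, s < t → g (tup d u s t) ≠ 0) ∧
      ∀ s t s' t' : ℕ, s < t → s' < t' →
        g (tup d u s t) = g (tup d u s' t') → s = s' ∧ t = t' := by
  obtain ⟨d, u, h⟩ := h
  by_cases hz : ∃ s t, s < t ∧ g (tup d u s t) = 0
  · obtain ⟨s0, t0, hst0, hz⟩ := hz
    refine ⟨d, fun l r => u l (r + (t0 + 1)), ?_, ?_⟩
    · intro s t hst he
      rw [tup_comp d u (fun r => r + (t0 + 1))] at he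
      have := h _ _ _ _ (by omega) hst0 (he.trans hz.symm)
      omega
    · intro s t s' t' hst hst' he
      rw [tup_comp d u (fun r => r + (t0 + 1)), tup_comp d u (fun r => r + (t0 + 1))] at he
      have := h _ _ _ _ (by omega) (by omega) he
      omega
  · push Not at hz
    exact ⟨d, u, hz, h⟩

theorem NI_of_zero {ι : Type} {F g : (ι → ℕ) → ℕ} (hF : ¬ SI F)
    (hg : ∀ x, g x = F x ∨ g x = 0) : ¬ SI g := by
  intro h
  obtain ⟨d, u, h0, h1⟩ := SI_shift h
  refine hF ⟨d, u, fun s t s' t' hst hst' he => h1 s t s' t' hst hst' ?_⟩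
  rw [(hg _).resolve_right (h0 s t hst), (hg _).resolve_right (h0 s' t' hst'), he]


/-! ### The decomposition -/

section Decomp

variable {ι : Type} [Fintype ι] [DecidableEq ι]

/-- `x j` is the largest and `x i` the second largest entry, both strictly. -/
def Dom (S : Finset ι) (i j : ι) (x : ι → ℕ) : Prop :=
  x i < x j ∧ ∀ l ∈ S, l ≠ i → l ≠ j → x l < x i

theorem lemmaB (S : Finset ι) (i j : ι) (hj : j ∈ S) (hij : i ≠ j)
    (IH : ∀ F : (ι → ℕ) → ℕ, DependsOn F ((S.erase j : Finset ι) : Set ι) → ¬ SI F → G F)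
    (hi : i ∈ S) (g : (ι → ℕ) → ℕ) (hg : ¬ SI g) (hdep : DependsOn g (S : Set ι))
    (hD : ∀ x, ¬ Dom S i j x → g x = 0) (K : ℕ → ℕ) (hK : ∀ x, g x ≤ K (x i)) : G g := by
  classical
  -- the finite table
  have hb : ∀ (y z : ℕ) (w : ι → ℕ), g (update (update w i y) j z) < K y + 1 := by
    intro y z w
    have := hK (update (update w i y) j z)
    rw [update_of_ne hij, update_self] at this
    omega
  let Θ : (y : ℕ) → ℕ → ((ι → Fin (y + 1)) → Fin (K y + 1)) := fun y z h =>
    ⟨g (update (update (fun l => (h l : ℕ)) i y) j z), hb y z _⟩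
  let r : ℕ → ℕ → ℕ := fun y z => invFun (Θ y) (Θ y z)
  have hr : ∀ y z, Θ y (r y z) = Θ y z := fun y z => invFun_eq ⟨z, rfl⟩
  have key : ∀ y z x, g (update (update x i y) j (r y z)) = g (update (update x i y) j z) := by
    intro y z x
    by_cases hx : ∀ l ∈ S, l ≠ i → l ≠ j → x l < y
    · let h : ι → Fin (y + 1) := fun l => ⟨min (x l) y, by omega⟩
      have h1 := congrArg Fin.val (congrFun (hr y z) h)
      have h2 : ∀ z', g (update (update (fun l => (h l : ℕ)) i y) j z')
          = g (update (update x i y) j z') := by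
        intro z'
        apply hdep
        intro l hl
        by_cases hlj : l = j
        · subst hlj; simp
        · rw [update_of_ne hlj, update_of_ne hlj]
          by_cases hli : l = i
          · subst hli; simp
          · rw [update_of_ne hli, update_of_ne hli]
            have := hx l hl hli hlj
            show min (x l) y = x l
            omega
      have h1' : g (update (update (fun l => (h l : ℕ)) i y) j (r y z))
          = g (update (update (fun l => (h l : ℕ)) i y) j z) := h1
      rw [h2, h2] at h1'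
      exact h1'
    · have h0 : ∀ z', g (update (update x i y) j z') = 0 := by
        intro z'
        apply hD
        rintro ⟨_, h2⟩
        apply hx
        intro l hl hli hlj
        have := h2 l hl hli hlj
        rwa [update_of_ne hlj, update_of_ne hli, update_of_ne hij, update_self] at this
      rw [h0, h0]
  let T : ℕ → ℕ → ℕ := fun y z => Nat.pair y (r y z)
  have hT : T ∈ T2 := by
    apply T2_fin
    · intro y
      refine (Set.finite_range (fun q => Nat.pair y (invFun (Θ y) q))).subset ?_
      rintro _ ⟨z, rfl⟩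
      exact ⟨Θ y z, rfl⟩
    · intro y z hzy
      have : Θ y z = Θ y 0 := by
        funext h
        apply Fin.ext
        show g (update (update (fun l => (h l : ℕ)) i y) j z)
          = g (update (update (fun l => (h l : ℕ)) i y) j 0)
        rw [hD, hD]
        · rintro ⟨h1, _⟩
          rw [update_of_ne hij, update_self, update_self] at h1
          omega
        · rintro ⟨h1, _⟩
          rw [update_of_ne hij, update_self, update_self] at h1
          omega
      show Nat.pair y (invFun (Θ y) (Θ y z)) = Nat.pair y (invFun (Θ y) (Θ y 0))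
      rw [this]
  let B : (ι → ℕ) → ℕ := fun x =>
    g (update (update x i (Nat.unpair (x i)).1) j (Nat.unpair (x i)).2)
  have hBdep : DependsOn B ((S.erase j : Finset ι) : Set ι) := by
    intro x x' hxx
    have hxi : x i = x' i := hxx i (by simp [hij, hi])
    show g (update (update x i (Nat.unpair (x i)).1) j (Nat.unpair (x i)).2)
      = g (update (update x' i (Nat.unpair (x' i)).1) j (Nat.unpair (x' i)).2)
    apply hdep
    intro l hl
    by_cases hlj : l = j
    · subst hlj; simp [hxi]
    · rw [update_of_ne hlj, update_of_ne hlj]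
      by_cases hli : l = i
      · subst hli; simp [hxi]
      · rw [update_of_ne hli, update_of_ne hli]
        exact hxx l (by simp [hlj]; exact hl)
  have hBNI : ¬ SI B := by
    rintro ⟨d, u, h⟩
    refine hg ⟨update d j (d i), update (update u i (fun r => (Nat.unpair (u i r)).1)) j
      (fun r => (Nat.unpair (u i r)).2), fun s t s' t' hst hst' he => h s t s' t' hst hst' ?_⟩
    have e : ∀ s t, tup (update d j (d i)) (update (update u i (fun r => (Nat.unpair (u i r)).1)) j
        (fun r => (Nat.unpair (u i r)).2)) s t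
        = update (update (tup d u s t) i (Nat.unpair (tup d u s t i)).1) j
          (Nat.unpair (tup d u s t i)).2 := by
      intro s t
      funext l
      by_cases hlj : l = j
      · subst hlj; simp [tup]
      · rw [update_of_ne hlj]
        by_cases hli : l = i
        · subst hli; simp [tup, hlj]
        · simp [tup, hlj, hli]
    rw [e, e] at he
    exact he
  have hGB : G B := IH B hBdep hBNI
  have hfin := hGB.subst (fun l (x : ι → ℕ) => if l = i then T (x i) (x j) else x l) (by
    intro l
    by_cases hli : l = i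
    · simp only [hli, if_true]
      exact G.app T hT _ _ (G.proj i) (G.proj j)
    · simp only [hli, if_false]
      exact G.proj l)
  convert hfin using 2 with x
  show g x = g (update (update (fun l => if l = i then T (x i) (x j) else x l) i
    (Nat.unpair (if i = i then T (x i) (x j) else x i)).1) j
    (Nat.unpair (if i = i then T (x i) (x j) else x i)).2)
  simp only [if_true, T, Nat.unpair_pair]
  have e1 : update (update (fun l => if l = i then Nat.pair (x i) (r (x i) (x j)) else x l) i (x i))
      j (r (x i) (x j)) = update (update x i (x i)) j (r (x i) (x j)) := by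
    funext l
    by_cases hlj : l = j
    · subst hlj; simp
    · rw [update_of_ne hlj, update_of_ne hlj]
      by_cases hli : l = i
      · subst hli; simp
      · rw [update_of_ne hli, update_of_ne hli]
        simp [hli]
  rw [e1, key]
  simp


theorem lemmaF (S : Finset ι) (i j : ι) (hj : j ∈ S) (hij : i ≠ j)
    (IH : ∀ F : (ι → ℕ) → ℕ, DependsOn F ((S.erase j : Finset ι) : Set ι) → ¬ SI F → G F)
    (hi : i ∈ S) (F : (ι → ℕ) → ℕ) (hF : ¬ SI F) (hdep : DependsOn F (S : Set ι)) :
    ∃ t : (ι → ℕ) → ℕ, G t ∧ (∀ x, Dom S i j x → t x = F x) ∧ (∀ x, ¬ Dom S i j x → t x = 0) := by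
  classical
  have domdep : ∀ x x' : ι → ℕ, (∀ l ∈ (S : Set ι), x l = x' l) → (Dom S i j x → Dom S i j x') := by
    rintro x x' hxx ⟨h1, h2⟩
    refine ⟨?_, fun l hl hli hlj => ?_⟩
    · rw [← hxx i hi, ← hxx j hj]; exact h1
    · rw [← hxx i hi, ← hxx l hl]; exact h2 l hl hli hlj
  -- the part with small values
  let g1 : (ι → ℕ) → ℕ := fun x => if Dom S i j x ∧ F x ≤ x i then F x else 0
  have hg1 : G g1 := by
    refine lemmaB S i j hj hij IH hi g1 ?_ ?_ ?_ (fun y => y) ?_
    · refine NI_of_zero hF (fun x => ?_)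
      by_cases h : Dom S i j x ∧ F x ≤ x i
      · left; exact if_pos h
      · right; exact if_neg h
    · intro x x' hxx
      have e1 : F x = F x' := hdep hxx
      have e2 : x i = x' i := hxx i hi
      have e3 : Dom S i j x ↔ Dom S i j x' :=
        ⟨domdep x x' hxx, domdep x' x (fun l hl => (hxx l hl).symm)⟩
      show (if Dom S i j x ∧ F x ≤ x i then F x else 0)
        = (if Dom S i j x' ∧ F x' ≤ x' i then F x' else 0)
      simp only [e1, e2, e3]
    · intro x hx
      show (if Dom S i j x ∧ F x ≤ x i then F x else 0) = 0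
      rw [if_neg (fun h => hx h.1)]
    · intro x
      show (if Dom S i j x ∧ F x ≤ x i then F x else 0) ≤ x i
      split_ifs with h
      · exact h.2
      · omega
  -- coding of tuples
  obtain ⟨dec, hdec⟩ := exists_surjective_nat (ι → ℕ)
  have hne : ∀ x : ι → ℕ, {c : ℕ | F (update (dec c) j (x j)) = F x}.Nonempty := by
    intro x
    obtain ⟨c, hc⟩ := hdec x
    refine ⟨c, ?_⟩
    show F (update (dec c) j (x j)) = F x
    rw [hc]; simp
  let J : (ι → ℕ) → ℕ := fun x =>
    if Dom S i j x ∧ x i < F x then 1 + sInf {c : ℕ | F (update (dec c) j (x j)) = F x} else 0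
  let enc : (ι → ℕ) → ℕ := surjInv hdec
  have henc : ∀ x, dec (enc x) = x := surjInv_eq hdec
  let K : ℕ → ℕ := fun y => 1 + (Finset.univ : Finset (ι → Fin (y + 1))).sup
    (fun h => enc (fun l => (h l : ℕ)))
  have hK : ∀ x, J x ≤ K (x i) := by
    intro x
    show (if Dom S i j x ∧ x i < F x then
      1 + sInf {c : ℕ | F (update (dec c) j (x j)) = F x} else 0) ≤ K (x i)
    split_ifs with hx
    · let h : ι → Fin (x i + 1) := fun l => ⟨min (x l) (x i), by omega⟩
      have h1 : sInf {c : ℕ | F (update (dec c) j (x j)) = F x} ≤ enc (fun l => (h l : ℕ)) := by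
        apply Nat.sInf_le
        show F (update (dec (enc (fun l => (h l : ℕ)))) j (x j)) = F x
        rw [henc]
        apply hdep
        intro l hl
        by_cases hlj : l = j
        · subst hlj; simp
        · rw [update_of_ne hlj]
          show min (x l) (x i) = x l
          by_cases hli : l = i
          · subst hli; simp
          · have := hx.1.2 l hl hli hlj
            omega
      have h2 : enc (fun l => (h l : ℕ)) ≤ (Finset.univ : Finset (ι → Fin (x i + 1))).sup
          (fun h => enc (fun l => (h l : ℕ))) :=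
        Finset.le_sup (f := fun h : ι → Fin (x i + 1) => enc (fun l => (h l : ℕ)))
          (Finset.mem_univ h)
      show 1 + _ ≤ 1 + _
      omega
    · omega
  have hJbound : ∀ M x, x i ≤ M → J x ≤ (Finset.range (M + 1)).sup K := by
    intro M x hx
    exact (hK x).trans (Finset.le_sup (f := K) (Finset.mem_range.2 (by omega)))
  have hJNI : ¬ SI J := by
    intro hJ
    obtain ⟨d, u, hJ0, hJ1⟩ := SI_shift hJ
    have hdom : ∀ s t, s < t → Dom S i j (tup d u s t) ∧ tup d u s t i < F (tup d u s t) := by
      intro s t hst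
      by_contra hc
      exact hJ0 s t hst (if_neg hc)
    -- coordinate `j` and coordinate `i` depend on the larger argument
    have hdi : d i = true := by
      by_contra hc
      rw [Bool.not_eq_true] at hc
      refine no_bdd_inj (fun t => J (tup d u 0 (t + 1))) ?_
        (Set.Iic ((Finset.range (u i 0 + 1)).sup K)) (Set.finite_Iic _) (fun t => ?_)
      · intro t t' he
        have := hJ1 0 (t + 1) 0 (t' + 1) (by omega) (by omega) he
        omega
      · apply hJbound
        simp [tup, hc]
    have hdj : d j = true := by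
      by_contra hc
      rw [Bool.not_eq_true] at hc
      refine no_bdd_inj (fun t => J (tup d u 0 (t + 1))) ?_
        (Set.Iic ((Finset.range (u j 0 + 1)).sup K)) (Set.finite_Iic _) (fun t => ?_)
      · intro t t' he
        have := hJ1 0 (t + 1) 0 (t' + 1) (by omega) (by omega) he
        omega
      · apply hJbound
        have h1 := (hdom 0 (t + 1) (by omega)).1.1
        have h2 : tup d u 0 (t + 1) j = u j 0 := by simp [tup, hc]
        rw [h2] at h1
        omega
    have hti : ∀ s t, tup d u s t i = u i t := by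
      intro s t; simp [tup, hdi]
    have htj : ∀ s t, tup d u s t j = u j t := by
      intro s t; simp [tup, hdj]
    -- values for fixed `t`
    have hcol : ∀ s s' t, s < t → s' < t → F (tup d u s t) = F (tup d u s' t) → s = s' := by
      intro s s' t hs hs' he
      refine (hJ1 s t s' t hs hs' ?_).1
      show (if Dom S i j (tup d u s t) ∧ tup d u s t i < F (tup d u s t) then
        1 + sInf {c : ℕ | F (update (dec c) j (tup d u s t j)) = F (tup d u s t)} else 0)
        = (if Dom S i j (tup d u s' t) ∧ tup d u s' t i < F (tup d u s' t) then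
        1 + sInf {c : ℕ | F (update (dec c) j (tup d u s' t j)) = F (tup d u s' t)} else 0)
      rw [if_pos (hdom s t hs), if_pos (hdom s' t hs'), htj, htj, he]
    -- the values `u i t` are unbounded
    have hunb : ∀ k M, ∃ k', k < k' ∧ M ≤ u i k' := by
      intro k M
      by_contra hc
      push Not at hc
      refine no_bdd_inj (fun t => J (tup d u 0 (t + (k + 1)))) ?_
        (Set.Iic ((Finset.range (M + 1)).sup K)) (Set.finite_Iic _) (fun t => ?_)
      · intro t t' he
        have := hJ1 0 (t + (k + 1)) 0 (t' + (k + 1)) (by omega) (by omega) he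
        omega
      · apply hJbound
        rw [hti]
        exact (hc _ (by omega)).le
    let M : ℕ → ℕ := fun k => (Finset.range (k + 1)).sup
      (fun s => (Finset.range (k + 1)).sup (fun t => F (tup d u s t)))
    have hM : ∀ k s t, s ≤ k → t ≤ k → F (tup d u s t) ≤ M k := by
      intro k s t hs ht
      refine le_trans ?_ (Finset.le_sup (f := fun s => (Finset.range (k + 1)).sup
        (fun t => F (tup d u s t))) (Finset.mem_range.2 (by omega : s < k + 1)))
      exact Finset.le_sup (f := fun t => F (tup d u s t))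
        (Finset.mem_range.2 (by omega : t < k + 1))
    choose nx hnx1 hnx2 using fun k => hunb k (M k)
    let τ : ℕ → ℕ := fun n => nx^[n] 0
    have hτs : ∀ n, τ (n + 1) = nx (τ n) := fun n => iterate_succ_apply' nx n 0
    have hτ : StrictMono τ := strictMono_nat_of_lt_succ (fun n => by
      rw [hτs]; exact hnx1 _)
    have hlt : ∀ s t s' t', s < t → s' < t' → t' < t →
        F (tup d u (τ s') (τ t')) < F (tup d u (τ s) (τ t)) := by
      intro s t s' t' hst hst' htt
      obtain ⟨n, rfl⟩ : ∃ n, t = n + 1 := ⟨t - 1, by omega⟩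
      have h1 := (hdom (τ s) (τ (n + 1)) (hτ hst)).2
      rw [hti, hτs] at h1
      have h2 := hnx2 (τ n)
      have h3 := hM (τ n) (τ s') (τ t') (hτ.monotone (by omega)) (hτ.monotone (by omega))
      rw [hτs]
      omega
    refine hF ⟨d, fun l r => u l (τ r), fun s t s' t' hst hst' he => ?_⟩
    rw [tup_comp d u τ, tup_comp d u τ] at he
    rcases lt_trichotomy t t' with h | h | h
    · have := hlt s' t' s t hst' hst h
      omega
    · subst h
      exact ⟨hτ.injective (hcol _ _ _ (hτ hst) (hτ hst') he), rfl⟩
    · have := hlt s t s' t' hst hst' h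
      omega
  have hGJ : G J := by
    refine lemmaB S i j hj hij IH hi J hJNI ?_ ?_ K hK
    · intro x x' hxx
      have e1 : F x = F x' := hdep hxx
      have e2 : x i = x' i := hxx i hi
      have e2' : x j = x' j := hxx j hj
      have e3 : Dom S i j x ↔ Dom S i j x' :=
        ⟨domdep x x' hxx, domdep x' x (fun l hl => (hxx l hl).symm)⟩
      show (if Dom S i j x ∧ x i < F x then
        1 + sInf {c : ℕ | F (update (dec c) j (x j)) = F x} else 0)
        = (if Dom S i j x' ∧ x' i < F x' then
        1 + sInf {c : ℕ | F (update (dec c) j (x' j)) = F x'} else 0)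
      simp only [e1, e2, e2', e3]
    · intro x hx
      exact if_neg (fun h => hx h.1)
  let A : ℕ → ℕ → ℕ := fun v z => if v = 0 then 0 else F (update (dec (v - 1)) j z)
  have hA : A ∈ T2 := by
    rw [T2_iff]
    refine NI_of_zero (F := fun x : Fin 2 → ℕ => F (update (dec (x 0 - 1)) j (x 1))) ?_ ?_
    · rintro ⟨d, u, h⟩
      refine hF ⟨fun l => if l = j then d 1 else d 0,
        fun l r => if l = j then u 1 r else dec (u 0 r - 1) l,
        fun s t s' t' hst hst' he => h s t s' t' hst hst' ?_⟩
      have e : ∀ s t, tup (fun l => if l = j then d 1 else d 0)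
          (fun l r => if l = j then u 1 r else dec (u 0 r - 1) l) s t
          = update (dec (tup d u s t 0 - 1)) j (tup d u s t 1) := by
        intro s t
        funext l
        by_cases hlj : l = j
        · subst hlj; simp [tup]
        · simp [tup, hlj]
      rw [e, e] at he
      exact he
    · intro x
      by_cases hx : x 0 = 0
      · right; exact if_pos hx
      · left; exact if_neg hx
  refine ⟨fun x => max (g1 x) (A (J x) (x j)), G.app _ T2_max _ _ hg1 (G.app A hA _ _ hGJ
    (G.proj j)), fun x hx => ?_, fun x hx => ?_⟩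
  · show max (g1 x) (A (J x) (x j)) = F x
    by_cases hs : F x ≤ x i
    · have e1 : g1 x = F x := if_pos ⟨hx, hs⟩
      have e2 : J x = 0 := if_neg (fun h => by omega)
      have e3 : A (J x) (x j) = 0 := by rw [e2]; exact if_pos rfl
      rw [e1, e3]; simp
    · have e1 : g1 x = 0 := if_neg (fun h => hs h.2)
      have e2 : J x = 1 + sInf {c : ℕ | F (update (dec c) j (x j)) = F x} :=
        if_pos ⟨hx, by omega⟩
      have e3 : A (J x) (x j) = F x := by
        show (if J x = 0 then 0 else F (update (dec (J x - 1)) j (x j))) = F x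
        rw [e2, if_neg (by omega), Nat.add_sub_cancel_left]
        exact Nat.sInf_mem (hne x)
      rw [e1, e3]; simp
  · show max (g1 x) (A (J x) (x j)) = 0
    have e1 : g1 x = 0 := if_neg (fun h => hx h.1)
    have e2 : J x = 0 := if_neg (fun h => hx h.1)
    have e3 : A (J x) (x j) = 0 := by rw [e2]; exact if_pos rfl
    rw [e1, e3]; simp


omit [Fintype ι] [DecidableEq ι] in
theorem G_const [Nonempty ι] (c : ℕ) : G (fun _ : ι → ℕ => c) :=
  G.app _ (T2_left (fun _ => c)) _ _ (G.proj (Classical.arbitrary ι))
    (G.proj (Classical.arbitrary ι))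

omit [Fintype ι] [DecidableEq ι] in
theorem G_sup [Nonempty ι] {α : Type} [DecidableEq α] (P : Finset α)
    (f : α → (ι → ℕ) → ℕ) (hf : ∀ a ∈ P, G (f a)) : G (fun x => P.sup (fun a => f a x)) := by
  induction P using Finset.induction_on with
  | empty => exact G_const 0
  | insert a P ha ih =>
    have h1 := ih (fun b hb => hf b (Finset.mem_insert_of_mem hb))
    have h2 := hf a (Finset.mem_insert_self _ _)
    have h3 := G.app _ T2_max _ _ h2 h1
    convert h3 using 2 with x
    rw [Finset.sup_insert]

/-- Every nowhere 1-1 operation is a composition of members of `T_2`. -/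
theorem main [Nonempty ι] : ∀ (k : ℕ) (S : Finset ι), S.card = k → ∀ F : (ι → ℕ) → ℕ,
    DependsOn F (S : Set ι) → ¬ SI F → G F := by
  classical
  intro k
  induction k with
  | zero =>
    intro S hS F hdep _
    have hS' : S = ∅ := Finset.card_eq_zero.1 hS
    subst hS'
    have : F = fun _ => F 0 := by
      funext x
      exact hdep (by intro l hl; simp at hl)
    rw [this]
    exact G_const _
  | succ k ih =>
    intro S hS F hdep hF
    have IH : ∀ j ∈ S, ∀ F : (ι → ℕ) → ℕ,
        DependsOn F ((S.erase j : Finset ι) : Set ι) → ¬ SI F → G F := by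
      intro j hj
      exact ih (S.erase j) (by rw [Finset.card_erase_of_mem hj, hS]; rfl)
    rcases Nat.eq_zero_or_pos k with hk | hk
    · -- essentially unary
      subst hk
      obtain ⟨i, hi⟩ := Finset.card_eq_one.1 hS
      subst hi
      have h1 := G.app _ (T2_left (fun y => F (fun _ => y))) _ _ (G.proj i) (G.proj i)
      convert h1 using 2 with x
      apply hdep
      intro l hl
      simp at hl
      rw [hl]
    · -- at least two essential variables
      let P : Finset (ι × ι) := S.offDiag
      have hP : ∀ q : ι × ι, q ∈ P ↔ q.1 ∈ S ∧ q.2 ∈ S ∧ q.1 ≠ q.2 := fun q =>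
        Finset.mem_offDiag
      have hA : ∀ q : ι × ι, ∃ t : (ι → ℕ) → ℕ, q ∈ P → (G t ∧
          (∀ x, Dom S q.1 q.2 x → t x = F x) ∧ (∀ x, ¬ Dom S q.1 q.2 x → t x = 0)) := by
        intro q
        by_cases hq : q ∈ P
        · obtain ⟨h1, h2, h3⟩ := (hP q).1 hq
          obtain ⟨t, ht⟩ := lemmaF S q.1 q.2 h2 h3 (IH q.2 h2) h1 F hF hdep
          exact ⟨t, fun _ => ht⟩
        · exact ⟨fun _ => 0, fun h => absurd h hq⟩
      choose t ht using hA
      let e : ι × ι → (ι → ℕ) → ℕ := fun q x => F (update x q.2 (x q.1))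
      have he : ∀ q ∈ P, G (e q) := by
        intro q hq
        obtain ⟨h1, h2, h3⟩ := (hP q).1 hq
        refine IH q.2 h2 (e q) ?_ ?_
        · intro x x' hxx
          show F (update x q.2 (x q.1)) = F (update x' q.2 (x' q.1))
          apply hdep
          intro l hl
          by_cases hlj : l = q.2
          · subst hlj
            rw [update_self, update_self]
            exact hxx q.1 (by simp [h1, h3])
          · rw [update_of_ne hlj, update_of_ne hlj]
            exact hxx l (by simp [hlj]; exact hl)
        · rintro ⟨d, u, h⟩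
          refine hF ⟨update d q.2 (d q.1), update u q.2 (u q.1),
            fun s t s' t' hst hst' he => h s t s' t' hst hst' ?_⟩
          have e' : ∀ s t, tup (update d q.2 (d q.1)) (update u q.2 (u q.1)) s t
              = update (tup d u s t) q.2 (tup d u s t q.1) := by
            intro s t
            funext l
            by_cases hlj : l = q.2
            · subst hlj; simp [tup]
            · simp [tup, hlj]
          rw [e', e'] at he
          exact he
      let c : ι × ι → (ι → ℕ) → ℕ := fun q x => if x q.1 = x q.2 then e q x else 0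
      have hc : ∀ q ∈ P, G (c q) := by
        intro q hq
        have h1 := G.app _ T2_sel _ _ (G.app _ T2_eq _ _ (G.proj q.1) (G.proj q.2)) (he q hq)
        convert h1 using 2 with x
        show (if x q.1 = x q.2 then e q x else 0)
          = if (if x q.1 = x q.2 then 1 else 0) = 1 then e q x else 0
        by_cases hx : x q.1 = x q.2 <;> simp [hx]
      have hG := G_sup P (fun q x => max (t q x) (c q x)) (fun q hq =>
        G.app _ T2_max _ _ (ht q hq).1 (hc q hq))
      convert hG using 2 with x
      apply le_antisymm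
      · -- some piece takes the value `F x`
        by_cases hinj : ∃ q ∈ P, x q.1 = x q.2
        · obtain ⟨q, hq, hxq⟩ := hinj
          refine le_trans ?_ (Finset.le_sup (f := fun q => max (t q x) (c q x)) hq)
          refine le_trans (le_of_eq ?_) (le_max_right _ _)
          show F x = if x q.1 = x q.2 then F (update x q.2 (x q.1)) else 0
          rw [if_pos hxq, hxq, update_eq_self]
        · push Not at hinj
          have hcard : S.Nonempty := Finset.card_pos.1 (by omega)
          obtain ⟨j, hj, hjmax⟩ := S.exists_max_image x hcard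
          have hcard2 : (S.erase j).Nonempty := Finset.card_pos.1 (by
            rw [Finset.card_erase_of_mem hj]; omega)
          obtain ⟨i, hi, himax⟩ := (S.erase j).exists_max_image x hcard2
          obtain ⟨hij, hiS⟩ := Finset.mem_erase.1 hi
          have hne : ∀ a ∈ S, ∀ b ∈ S, a ≠ b → x a ≠ x b := fun a ha b hb hab =>
            hinj (a, b) ((hP _).2 ⟨ha, hb, hab⟩)
          have hq : (i, j) ∈ P := (hP _).2 ⟨hiS, hj, hij⟩
          have hdom : Dom S i j x := by
            refine ⟨lt_of_le_of_ne (hjmax i hiS) (hne i hiS j hj hij), fun l hl hli hlj => ?_⟩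
            exact lt_of_le_of_ne (himax l (Finset.mem_erase.2 ⟨hlj, hl⟩)) (hne l hl i hiS hli)
          refine le_trans ?_ (Finset.le_sup (f := fun q => max (t q x) (c q x)) hq)
          refine le_trans (le_of_eq ?_) (le_max_left _ _)
          exact ((ht (i, j) hq).2.1 x hdom).symm
      · apply Finset.sup_le
        intro q hq
        apply max_le
        · by_cases hd : Dom S q.1 q.2 x
          · rw [(ht q hq).2.1 x hd]
          · rw [(ht q hq).2.2 x hd]; exact Nat.zero_le _
        · show (if x q.1 = x q.2 then F (update x q.2 (x q.1)) else 0) ≤ F x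
          by_cases hxq : x q.1 = x q.2
          · rw [if_pos hxq, hxq, update_eq_self]
          · rw [if_neg hxq]; exact Nat.zero_le _

end Decomp

/-! ### Canonical Ramsey theorem for pairs -/

theorem exists_fusion (P : Finset ℕ → Prop) (h0 : P ∅)
    (hs : ∀ A, P A → ∀ᶠ t in (hyperfilter ℕ : Filter ℕ), (∀ a ∈ A, a < t) → P (insert t A)) :
    ∃ τ : ℕ → ℕ, StrictMono τ ∧ ∀ n, P ((Finset.range n).image τ) := by
  classical
  have hs' : ∀ A : {A // P A}, ∃ t, (∀ a ∈ A.1, a < t) ∧ P (insert t A.1) := by
    rintro ⟨A, hA⟩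
    have h1 := hs A hA
    have h2 : ∀ᶠ t in (hyperfilter ℕ : Filter ℕ), ∀ a ∈ A, a < t := by
      rw [eventually_all_finset]
      intro a _
      exact Nat.hyperfilter_le_atTop (eventually_gt_atTop a)
    obtain ⟨t, ht1, ht2⟩ := (h1.and h2).exists
    exact ⟨t, ht2, ht1 ht2⟩
  choose nx hnx using hs'
  let A : ℕ → {A // P A} := fun n => Nat.rec ⟨∅, h0⟩ (fun _ A => ⟨insert (nx A) A.1, (hnx A).2⟩) n
  have hA : ∀ n, (A (n + 1)).1 = insert (nx (A n)) (A n).1 := fun n => rfl
  refine ⟨fun n => nx (A n), strictMono_nat_of_lt_succ (fun n => ?_), fun n => ?_⟩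
  · exact (hnx (A (n + 1))).1 _ (by rw [hA]; exact Finset.mem_insert_self _ _)
  · have h3 : (Finset.range n).image (fun n => nx (A n)) = (A n).1 := by
      induction n with
      | zero => rfl
      | succ n ih => rw [Finset.range_add_one, Finset.image_insert, ih, hA]
    rw [h3]
    exact (A n).2

theorem exists_fusion2 (R : ℕ → ℕ → Prop)
    (hR : ∀ᶠ s in (hyperfilter ℕ : Filter ℕ), ∀ᶠ t in (hyperfilter ℕ : Filter ℕ), R s t) :
    ∃ τ : ℕ → ℕ, StrictMono τ ∧ ∀ s t, s < t → R (τ s) (τ t) := by
  obtain ⟨τ, hτ, h⟩ := exists_fusion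
    (fun A => ∀ s ∈ A, (∀ᶠ t in (hyperfilter ℕ : Filter ℕ), R s t) ∧ ∀ t ∈ A, s < t → R s t)
    (by intro s hs; simp at hs) (by
      intro A hA
      have h1 : ∀ᶠ t in (hyperfilter ℕ : Filter ℕ), ∀ s ∈ A, R s t := by
        rw [eventually_all_finset]
        exact fun s hs => (hA s hs).1
      filter_upwards [hR, h1] with t ht1 ht2 ht3 s hs
      rcases Finset.mem_insert.1 hs with rfl | hsA
      · refine ⟨ht1, fun t' ht' hlt => ?_⟩
        rcases Finset.mem_insert.1 ht' with rfl | ht'
        · exact absurd hlt (lt_irrefl _)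
        · have := ht3 t' ht'
          omega
      · refine ⟨(hA s hsA).1, fun t' ht' hlt => ?_⟩
        rcases Finset.mem_insert.1 ht' with rfl | ht'
        · exact ht2 s hsA
        · exact (hA s hsA).2 t' ht' hlt)
  refine ⟨τ, hτ, fun s t hst => ?_⟩
  exact (h (t + 1) (τ s) (Finset.mem_image_of_mem _ (Finset.mem_range.2 (by omega)))).2 (τ t)
    (Finset.mem_image_of_mem _ (Finset.mem_range.2 (by omega))) (hτ hst)

theorem canonical (a : ℕ → ℕ → ℕ) : ∃ τ : ℕ → ℕ, StrictMono τ ∧
    ((∃ (e : Bool) (p : ℕ → ℕ), ∀ s t, s < t → a (τ s) (τ t) = p (if e then t else s)) ∨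
     (∀ s t s' t', s < t → s' < t' → a (τ s) (τ t) = a (τ s') (τ t') → s = s' ∧ t = t')) := by
  classical
  by_cases h1 : ∀ᶠ s in (hyperfilter ℕ : Filter ℕ), ∃ c, ∀ᶠ t in (hyperfilter ℕ : Filter ℕ),
      a s t = c
  · obtain ⟨c, hc⟩ : ∃ c : ℕ → ℕ, ∀ s, (∃ c, ∀ᶠ t in (hyperfilter ℕ : Filter ℕ), a s t = c) →
        ∀ᶠ t in (hyperfilter ℕ : Filter ℕ), a s t = c s := by
      refine ⟨fun s => if h : ∃ c, ∀ᶠ t in (hyperfilter ℕ : Filter ℕ), a s t = c then h.choose
        else 0, fun s h => ?_⟩
      simp only [dif_pos h]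
      exact h.choose_spec
    obtain ⟨τ, hτ, h⟩ := exists_fusion2 (fun s t => a s t = c s) (h1.mono hc)
    exact ⟨τ, hτ, Or.inl ⟨false, fun s => c (τ s), fun s t hst => h s t hst⟩⟩
  · by_cases h2 : ∃ s0, ∀ᶠ s in (hyperfilter ℕ : Filter ℕ),
        ∀ᶠ t in (hyperfilter ℕ : Filter ℕ), a s t = a s0 t
    · obtain ⟨s0, h2⟩ := h2
      obtain ⟨τ, hτ, h⟩ := exists_fusion2 (fun s t => a s t = a s0 t) h2
      exact ⟨τ, hτ, Or.inl ⟨true, fun t => a s0 (τ t), fun s t hst => h s t hst⟩⟩
    · have h1' : ∀ᶠ s in (hyperfilter ℕ : Filter ℕ), ∀ c,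
          ∀ᶠ t in (hyperfilter ℕ : Filter ℕ), a s t ≠ c := by
        rw [← Ultrafilter.eventually_not] at h1
        filter_upwards [h1] with s hs c
        rw [Ultrafilter.eventually_not]
        exact fun h => hs ⟨c, h⟩
      have h2' : ∀ s0, ∀ᶠ s in (hyperfilter ℕ : Filter ℕ),
          ∀ᶠ t in (hyperfilter ℕ : Filter ℕ), a s t ≠ a s0 t := by
        push Not at h2
        exact h2
      obtain ⟨τ, hτ, h⟩ := exists_fusion
        (fun A => (∀ s ∈ A, ∀ c, ∀ᶠ t in (hyperfilter ℕ : Filter ℕ), a s t ≠ c) ∧
          (∀ s ∈ A, ∀ s' ∈ A, s < s' → ∀ᶠ t in (hyperfilter ℕ : Filter ℕ), a s t ≠ a s' t) ∧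
          (∀ s ∈ A, ∀ t ∈ A, ∀ s' ∈ A, ∀ t' ∈ A, s < t → s' < t' → a s t = a s' t' →
            s = s' ∧ t = t'))
        ⟨by simp, by simp, by simp⟩ (by
          rintro A ⟨hA1, hA2, hA3⟩
          have e1 : ∀ᶠ t in (hyperfilter ℕ : Filter ℕ), ∀ s ∈ A,
              ∀ᶠ t' in (hyperfilter ℕ : Filter ℕ), a t t' ≠ a s t' := by
            rw [eventually_all_finset]
            exact fun s _ => h2' s
          have e2 : ∀ᶠ t in (hyperfilter ℕ : Filter ℕ), ∀ s ∈ A, ∀ s' ∈ A, s < s' →
              a s t ≠ a s' t := by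
            rw [eventually_all_finset]
            intro s hs
            rw [eventually_all_finset]
            intro s' hs'
            by_cases hss : s < s'
            · filter_upwards [hA2 s hs s' hs' hss] with t ht _
              exact ht
            · exact Eventually.of_forall (fun t h => absurd h hss)
          have e3 : ∀ᶠ t in (hyperfilter ℕ : Filter ℕ), ∀ s ∈ A, ∀ s' ∈ A, ∀ t' ∈ A,
              a s t ≠ a s' t' := by
            rw [eventually_all_finset]
            intro s hs
            rw [eventually_all_finset]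
            intro s' _
            rw [eventually_all_finset]
            intro t' _
            exact hA1 s hs _
          filter_upwards [h1', e1, e2, e3] with t ht1 ht2 ht3 ht4 ht5
          refine ⟨?_, ?_, ?_⟩
          · intro s hs
            rcases Finset.mem_insert.1 hs with rfl | hsA
            · exact ht1
            · exact hA1 s hsA
          · intro s hs s' hs' hss
            rcases Finset.mem_insert.1 hs with rfl | hsA <;>
              rcases Finset.mem_insert.1 hs' with rfl | hsA'
            · exact absurd hss (lt_irrefl _)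
            · exact absurd hss (not_lt.2 (ht5 s' hsA').le)
            · filter_upwards [ht2 s hsA] with t' ht' he
              exact ht' he.symm
            · exact hA2 s hsA s' hsA' hss
          · have hmem : ∀ x ∈ insert t A, x ≤ t := by
              intro x hx
              rcases Finset.mem_insert.1 hx with rfl | hxA
              · exact le_rfl
              · exact (ht5 x hxA).le
            intro s hs t1 ht1' s' hs' t1' ht1'' hst hst' he
            have hsA : s ∈ A := by
              rcases Finset.mem_insert.1 hs with rfl | hsA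
              · have := hmem t1 ht1'; omega
              · exact hsA
            have hsA' : s' ∈ A := by
              rcases Finset.mem_insert.1 hs' with rfl | hsA
              · have := hmem t1' ht1''; omega
              · exact hsA
            rcases Finset.mem_insert.1 ht1' with h | htA <;>
              rcases Finset.mem_insert.1 ht1'' with h' | htA'
            · subst h; subst h'
              refine ⟨?_, rfl⟩
              rcases lt_trichotomy s s' with h | h | h
              · exact absurd he (ht3 s hsA s' hsA' h)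
              · exact h
              · exact absurd he.symm (ht3 s' hsA' s hsA h)
            · subst h
              exact absurd he (ht4 s hsA s' hsA' t1' htA')
            · subst h'
              exact absurd he.symm (ht4 s' hsA' s hsA t1 htA)
            · exact hA3 s hsA t1 htA s' hsA' t1' htA' hst hst' he)
      refine ⟨τ, hτ, Or.inr fun s t s' t' hst hst' he => ?_⟩
      have hmem : ∀ x, x ≤ t + t' → τ x ∈ (Finset.range (t + t' + 1)).image τ := fun x hx =>
        Finset.mem_image_of_mem _ (Finset.mem_range.2 (by omega))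
      obtain ⟨h3, h4⟩ := (h (t + t' + 1)).2.2 (τ s) (hmem s (by omega)) (τ t) (hmem t (by omega))
        (τ s') (hmem s' (by omega)) (τ t') (hmem t' (by omega)) (hτ hst) (hτ hst') he
      exact ⟨hτ.injective h3, hτ.injective h4⟩

/-- Nowhere 1-1 operations are closed under composition. -/
theorem NI_comp {ι κ : Type} [Fintype ι] (f : (ι → ℕ) → ℕ) (g : ι → (κ → ℕ) → ℕ)
    (hf : ¬ SI f) (hg : ∀ i, ¬ SI (g i)) : ¬ SI (fun x => f (fun i => g i x)) := by
  classical
  rintro ⟨d, u, h⟩
  have claim : ∀ S : Finset ι, ∃ τ : ℕ → ℕ, StrictMono τ ∧ ∀ i ∈ S, ∃ (e : Bool) (p : ℕ → ℕ),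
      ∀ s t, s < t → g i (tup d u (τ s) (τ t)) = p (if e then t else s) := by
    intro S
    induction S using Finset.induction_on with
    | empty => exact ⟨id, strictMono_id, by simp⟩
    | insert i S hi ih =>
      obtain ⟨τ, hτ, hS⟩ := ih
      obtain ⟨τ', hτ', h'⟩ := canonical (fun s t => g i (tup d u (τ s) (τ t)))
      rcases h' with ⟨e, p, hp⟩ | hinj
      · refine ⟨τ ∘ τ', hτ.comp hτ', fun l hl => ?_⟩
        rcases Finset.mem_insert.1 hl with rfl | hl
        · exact ⟨e, p, hp⟩
        · obtain ⟨e', p', hp'⟩ := hS l hl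
          refine ⟨e', p' ∘ τ', fun s t hst => ?_⟩
          have := hp' (τ' s) (τ' t) (hτ' hst)
          show g l (tup d u (τ (τ' s)) (τ (τ' t))) = p' (τ' (if e' then t else s))
          rw [this]
          cases e' <;> rfl
      · exfalso
        refine hg i ⟨d, fun l r => u l (τ (τ' r)), fun s t s' t' hst hst' he =>
          hinj s t s' t' hst hst' ?_⟩
        rw [tup_comp d u (fun r => τ (τ' r)), tup_comp d u (fun r => τ (τ' r))] at he
        exact he
  obtain ⟨τ, hτ, hall⟩ := claim Finset.univ
  choose e p hp using fun i => hall i (Finset.mem_univ i)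
  refine hf ⟨e, p, fun s t s' t' hst hst' he => ?_⟩
  have e1 : ∀ s t, s < t → (fun i => g i (tup d u (τ s) (τ t))) = tup e p s t := by
    intro s t hst
    funext i
    exact hp i s t hst
  have := h (τ s) (τ t) (τ s') (τ t') (hτ hst) (hτ hst') (by
    show f (fun i => g i (tup d u (τ s) (τ t))) = f (fun i => g i (tup d u (τ s') (τ t')))
    rw [e1 s t hst, e1 s' t' hst', he])
  exact ⟨hτ.injective this.1, hτ.injective this.2⟩

/-! ### The clone of nowhere 1-1 operations -/

def NIclone : Set Operation := {f | 1 ≤ f.1 ∧ ¬ SI f.2}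

theorem NIclone_isClone : IsClone NIclone := by
  refine ⟨fun f hf => hf.1, fun n i => ⟨?_, ?_⟩, fun n m f g hf hg => ⟨?_, ?_⟩⟩
  · have := i.pos
    show 1 ≤ n
    omega
  · rintro ⟨d, u, h⟩
    cases hd : d i
    · have := h 0 1 0 2 (by norm_num) (by norm_num) (by simp [tup, hd])
      omega
    · have := h 0 2 1 2 (by norm_num) (by norm_num) (by simp [tup, hd])
      omega
  · exact (hg ⟨0, hf.1⟩).1
  · exact NI_comp f g hf.2 (fun i => (hg i).2)

theorem binaryFragment_NIclone : binaryFragment NIclone = T2 := by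
  ext b
  rw [T2_iff]
  exact ⟨fun h => h.2, fun h => ⟨by show 1 ≤ 2; norm_num, h⟩⟩

theorem G_mem_generated {n : ℕ} (f : (Fin n → ℕ) → ℕ) (hf : G f) :
    (⟨n, f⟩ : Operation) ∈ generatedClone (toOperation '' T2) := by
  rintro C ⟨hC, hT⟩
  induction hf with
  | proj i => exact hC.proj_mem n i
  | app b hb f g _ _ ihf ihg =>
    have h1 : (⟨2, fun x => b (x 0) (x 1)⟩ : Operation) ∈ C := hT ⟨b, hb, rfl⟩
    have h2 := hC.comp_mem 2 n (fun x => b (x 0) (x 1)) ![f, g] h1 (by
      intro i
      fin_cases i
      · exact ihf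
      · exact ihg)
    exact h2

theorem generated_eq : generatedClone (toOperation '' T2) = NIclone := by
  apply Set.Subset.antisymm
  · intro f hf
    refine hf NIclone ⟨NIclone_isClone, ?_⟩
    rintro _ ⟨b, hb, rfl⟩
    rw [← binaryFragment_NIclone] at hb
    exact hb
  · rintro ⟨n, f⟩ ⟨hn, hf⟩
    have : Nonempty (Fin n) := ⟨⟨0, hn⟩⟩
    exact G_mem_generated f (main _ Finset.univ rfl f (by
      intro x x' hxx
      rw [show x = x' from funext (fun l => hxx l (by simp))]) hf)

theorem clone_le (C : Set Operation) (hC : IsClone C) (hb : binaryFragment C = T2) :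
    C ⊆ NIclone := by
  rintro ⟨n, f⟩ hf
  refine ⟨hC.arity_pos _ hf, ?_⟩
  rintro ⟨d, u, h⟩
  have h1 : ∀ i : Fin n, (⟨2, fun x => u i (if d i then x 1 else x 0)⟩ : Operation) ∈ C := by
    intro i
    cases hd : d i
    · have h2 : (fun y _ => u i y : ℕ → ℕ → ℕ) ∈ binaryFragment C := by
        rw [hb]; exact T2_left _
      exact h2
    · have h2 : (fun _ z => u i z : ℕ → ℕ → ℕ) ∈ binaryFragment C := by
        rw [hb]; exact T2_right _
      exact h2
  have h3 := hC.comp_mem n 2 f (fun i x => u i (if d i then x 1 else x 0)) hf h1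
  have h4 : (fun y z => f (tup d u y z)) ∈ binaryFragment C := h3
  rw [hb] at h4
  exact T2_elim1 h4 (fun x => x) (fun x => x) h

/-- `⟨T_2⟩ = Pol(T_2)`. The first part records that `Pol(T_2)` as defined above is indeed the
largest clone with binary fragment `T_2`. -/
theorem result :
    IsGreatest {C : Set Operation | IsClone C ∧ binaryFragment C = T2} PolT2 ∧
      generatedClone (toOperation '' T2) = PolT2 := by
  have h1 : PolT2 = NIclone := by
    apply Set.Subset.antisymm
    · exact Set.sUnion_subset (fun C hC => clone_le C hC.1 hC.2)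
    · exact Set.subset_sUnion_of_mem
        (show NIclone ∈ {C | IsClone C ∧ binaryFragment C = T2} from
          ⟨NIclone_isClone, binaryFragment_NIclone⟩)
  rw [h1]
  exact ⟨⟨⟨NIclone_isClone, binaryFragment_NIclone⟩, fun C hC => clone_le C hC.1 hC.2⟩,
    generated_eq⟩

end Pool.Agent.Results.MP_944b5f_al.CloneT2
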